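import Pool.Agent.Helper29.BL.GoalsC

/-!
# Project BL, packet GEN: generic points of a curve
-/

set_option autoImplicit false

namespace Pool.Agent.Helper49.BL

open WeierstrassCurve Height Height.AdmissibleAbsValues Polynomial Pool.Agent.Helper29.BL
open scoped Polynomial.Bivariate

noncomputable section

section

variable {K Ω : Type} [Field K] [Field Ω] [Algebra K Ω] (φ : K[X][Y] →+* Ω)
  (halg : ∀ r : K, algebraMap K Ω r = φ (C (C r)))

include halg

theorem evO_eq (G : K[X][Y]) : evO G (φ (C X), φ Y) = φ G := by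
  have h : (evalEvalRingHom (φ (C X)) (φ Y)).comp (mapRingHom (mapRingHom (algebraMap K Ω))) =
      φ := by
    refine Polynomial.ringHom_ext' ?_ ?_
    · refine Polynomial.ringHom_ext' ?_ ?_
      · ext r
        simp [halg]
      · simp
    · simp
  exact RingHom.congr_fun h G

theorem aeval_a (p : K[X]) : aeval (φ (C X)) p = φ (C p) := by
  have h : (aeval (φ (C X)) : K[X] →ₐ[K] Ω).toRingHom = φ.comp (C : K[X] →+* K[X][Y]) := by
    refine Polynomial.ringHom_ext' ?_ ?_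
    · ext r
      simp [halg]
    · simp
  exact RingHom.congr_fun h p

theorem aeval_b (p : K[X]) : aeval (φ Y) p = φ (p.map (C : K →+* K[X])) := by
  have h : (aeval (φ Y) : K[X] →ₐ[K] Ω).toRingHom = φ.comp (mapRingHom (C : K →+* K[X])) := by
    refine Polynomial.ringHom_ext' ?_ ?_
    · ext r
      simp [halg]
    · simp
  exact RingHom.congr_fun h p

omit [Algebra K Ω] halg in
theorem eval2_phi (F : K[X][Y]) : F.eval₂ (φ.comp C) (φ Y) = φ F := by
  have h : eval₂RingHom (φ.comp (C : K[X] →+* K[X][Y])) (φ Y) = φ := by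
    refine Polynomial.ringHom_ext' ?_ ?_
    · refine RingHom.ext fun r => ?_
      simp
    · simp
  exact RingHom.congr_fun h F

variable {Φ : K[X][Y]} (hdeg : PosDeg Φ) (hφ0 : ∀ G, φ G = 0 ↔ Φ ∣ G)

include hdeg hφ0

theorem trans_a : Transcendental K (φ (C X)) := by
  rintro ⟨p, hp0, hp⟩
  rw [aeval_a φ halg, hφ0] at hp
  have h1 := Polynomial.natDegree_le_of_dvd hp (by simpa using hp0)
  rw [Polynomial.natDegree_C] at h1
  have h2 := hdeg.1
  omega

theorem trans_b : Transcendental K (φ Y) := by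
  rintro ⟨p, hp0, hp⟩
  rw [aeval_b φ halg, hφ0] at hp
  have h1 : Bivariate.swap Φ ∣ C p := by
    obtain ⟨Q, hQ⟩ := hp
    refine ⟨Bivariate.swap Q, ?_⟩
    rw [← map_mul, ← hQ, Bivariate.swap_map_C]
  have h2 := Polynomial.natDegree_le_of_dvd h1 (by simpa using hp0)
  rw [Polynomial.natDegree_C, Nat.le_zero] at h2
  have h3 := Polynomial.eq_C_of_natDegree_eq_zero h2
  have h4 : Φ = ((Bivariate.swap Φ).coeff 0).map C := by
    rw [← Bivariate.swap_C, ← h3, Bivariate.swap_swap_apply]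
  obtain ⟨j, hj⟩ := hdeg.2
  rw [h4, Polynomial.coeff_map, Polynomial.natDegree_C] at hj
  omega

theorem alg_all (hΦ0 : Φ ≠ 0) (L : Type) [Field L] [Algebra L Ω] [Algebra.IsAlgebraic L Ω]
    (hL : ∀ l : L, ∃ F G, φ G ≠ 0 ∧ algebraMap L Ω l * φ G = φ F) (x : Ω) :
    IsAlgebraic (IntermediateField.adjoin K {φ (C X)}) x := by
  obtain ⟨E, hE⟩ : ∃ E : IntermediateField K Ω, E = IntermediateField.adjoin K {φ (C X)} :=
    ⟨_, rfl⟩
  rw [← hE]
  have haE : φ (C X) ∈ E := by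
    rw [hE]
    exact IntermediateField.mem_adjoin_simple_self K _
  have hCE : ∀ p : K[X], algebraMap E Ω (aeval (⟨φ (C X), haE⟩ : E) p) = φ (C p) := by
    intro p
    exact (Polynomial.aeval_algebraMap_apply Ω (⟨φ (C X), haE⟩ : E) p).symm.trans
      (aeval_a φ halg p)
  have hbalg : IsAlgebraic E (φ Y) := by
    obtain ⟨r, hr'⟩ : ∃ r : K[X] →+* E, ∀ p, r p = aeval (⟨φ (C X), haE⟩ : E) p :=
      ⟨(aeval (⟨φ (C X), haE⟩ : E) : K[X] →ₐ[K] E).toRingHom, fun _ => rfl⟩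
    have hr : (algebraMap E Ω).comp r = φ.comp C := RingHom.ext fun p => by
      rw [RingHom.comp_apply, hr', hCE, RingHom.comp_apply]
    have hrinj : Function.Injective r := by
      rw [injective_iff_map_eq_zero]
      intro p hp
      by_contra hp0
      refine trans_a φ halg hdeg hφ0 ⟨p, hp0, ?_⟩
      rw [aeval_a φ halg, ← hCE, ← hr', hp, map_zero]
    refine ⟨Φ.map r, (Polynomial.map_ne_zero_iff hrinj).2 hΦ0, ?_⟩
    rw [Polynomial.aeval_def, Polynomial.eval₂_map, hr, eval2_phi, hφ0]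
  obtain ⟨M, hM⟩ : ∃ M : IntermediateField E Ω, M = algebraicClosure E Ω := ⟨_, rfl⟩
  have hbM : φ Y ∈ M := by
    rw [hM, mem_algebraicClosure_iff]
    exact hbalg
  have hφM : ∀ F : K[X][Y], φ F ∈ M := by
    intro F
    rw [← eval2_phi, Polynomial.eval₂_eq_sum_range]
    refine sum_mem fun i _ => mul_mem ?_ (pow_mem hbM i)
    rw [RingHom.comp_apply, ← hCE]
    exact M.algebraMap_mem _
  have hLM : ∀ l : L, algebraMap L Ω l ∈ M := by
    intro l
    obtain ⟨F, G, hG, hFG⟩ := hL l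
    have h1 : algebraMap L Ω l = φ F / φ G := by
      rw [eq_div_iff hG, hFG]
    rw [h1]
    exact div_mem (hφM F) (hφM G)
  have hxM : IsAlgebraic M x := by
    obtain ⟨p, hp0, hp⟩ := Algebra.IsAlgebraic.isAlgebraic (R := L) x
    obtain ⟨ι, hι⟩ : ∃ ι : L →+* M, ∀ l, algebraMap M Ω (ι l) = algebraMap L Ω l :=
      ⟨(algebraMap L Ω).codRestrict M hLM, fun _ => rfl⟩
    refine ⟨p.map ι, (Polynomial.map_ne_zero_iff ι.injective).2 hp0, ?_⟩
    rw [Polynomial.aeval_def, Polynomial.eval₂_map]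
    have h1 : (algebraMap M Ω).comp ι = algebraMap L Ω := RingHom.ext fun l => hι l
    rw [h1]
    exact hp
  subst hM
  exact hxM.restrictScalars E

theorem gen_mk [IsAlgClosed Ω] (hΦ0 : Φ ≠ 0) (L : Type) [Field L] [Algebra L Ω]
    [Algebra.IsAlgebraic L Ω]
    (hL : ∀ l : L, ∃ F G, φ G ≠ 0 ∧ algebraMap L Ω l * φ G = φ F) : Gen Φ Ω (φ (C X)) (φ Y) :=
  ⟨inferInstance, trans_a φ halg hdeg hφ0, trans_b φ halg hdeg hφ0,
    fun G => by rw [evO_eq φ halg, hφ0], fun x => alg_all φ halg hdeg hφ0 hΦ0 L hL x⟩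

end

theorem gen_core {K : Type} [Field K] {Φ : K[X][Y]} (hΦ0 : Φ ≠ 0) (hdeg : PosDeg Φ)
    (A : Type) [CommRing A] [IsDomain A] (π : K[X][Y] →+* A) (hs : Function.Surjective π)
    (hπ : ∀ G, π G = 0 ↔ Φ ∣ G) :
    ∃ (Ω : Type) (_ : Field Ω) (_ : Algebra K Ω) (a b : Ω), Gen Φ Ω a b := by
  obtain ⟨φ, hφ⟩ : ∃ φ : K[X][Y] →+* AlgebraicClosure (FractionRing A), ∀ G, φ G =
      algebraMap (FractionRing A) (AlgebraicClosure (FractionRing A))
        (algebraMap A (FractionRing A) (π G)) :=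
    ⟨((algebraMap (FractionRing A) (AlgebraicClosure (FractionRing A))).comp
      (algebraMap A (FractionRing A))).comp π, fun _ => rfl⟩
  have hφ0 : ∀ G, φ G = 0 ↔ Φ ∣ G := by
    intro G
    rw [hφ, map_eq_zero, IsFractionRing.to_map_eq_zero_iff, hπ]
  refine ⟨AlgebraicClosure (FractionRing A), inferInstance,
    (φ.comp ((C : K[X] →+* K[X][Y]).comp C)).toAlgebra, φ (C X), φ Y, ?_⟩
  letI := (φ.comp ((C : K[X] →+* K[X][Y]).comp C)).toAlgebra
  refine gen_mk φ (fun r => rfl) hdeg hφ0 hΦ0 (FractionRing A) fun l => ?_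
  obtain ⟨x, y, hy, rfl⟩ := IsFractionRing.div_surjective (A := A) l
  obtain ⟨F, rfl⟩ := hs x
  obtain ⟨G, rfl⟩ := hs y
  have h1 : algebraMap A (FractionRing A) (π G) ≠ 0 := by
    rw [Ne, IsFractionRing.to_map_eq_zero_iff]
    exact nonZeroDivisors.ne_zero hy
  refine ⟨F, G, ?_, ?_⟩
  · rw [hφ]
    exact fun h => h1 ((map_eq_zero _).1 h)
  · rw [hφ, hφ, ← map_mul, div_mul_cancel₀ _ h1]

theorem gen : GEN := by
  intro K _ Φ hΦ hdeg
  have hprime : Prime Φ := hΦ.prime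
  have : (Ideal.span {Φ} : Ideal K[X][Y]).IsPrime :=
    (Ideal.span_singleton_prime hprime.ne_zero).2 hprime
  refine gen_core hΦ.ne_zero hdeg (K[X][Y] ⧸ Ideal.span {Φ}) (Ideal.Quotient.mk (Ideal.span {Φ}))
    Ideal.Quotient.mk_surjective fun G => ?_
  rw [Ideal.Quotient.eq_zero_iff_mem, Ideal.mem_span_singleton]

end

end Pool.Agent.Helper49.BL
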